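import Mathlib

/-!
# Groups in which every subgroup is finitely generated

Finitely generated nilpotent groups satisfy the maximal condition on subgroups.
-/

namespace Pool.Agent.helper14.FA

open Subgroup
open scoped commutatorElement

/-- every subgroup is finitely generated -/
def MaxCond (G : Type*) [Group G] : Prop := ∀ H : Subgroup G, H.FG

theorem MaxCond.wf {G : Type*} [Group G] (h : MaxCond G) : WellFoundedGT (Subgroup G) := by
  rw [wellFoundedGT_iff_monotone_chain_condition]
  intro a
  obtain ⟨S, hS⟩ := h (⨆ n, a n)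
  have hmem : ∀ s ∈ S, ∃ n, s ∈ a n := by
    intro s hs
    have : s ∈ ⨆ n, a n := by
      rw [← hS]; exact subset_closure hs
    exact (mem_iSup_of_directed (a.monotone.directed_le)).1 this
  choose! n hn using hmem
  refine ⟨S.sup n, fun m hm => le_antisymm (a.monotone hm) ?_⟩
  have h1 : closure (S : Set G) ≤ a (S.sup n) := by
    rw [closure_le]
    intro s hs
    exact a.monotone (Finset.le_sup hs) (hn s hs)
  rw [hS] at h1
  exact (le_iSup (fun n => a n) m).trans h1

theorem fg_of_le_of_fg_map {G H : Type*} [Group G] [Group H] (f : G →* H) (K : Subgroup G)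
    (h1 : (K ⊓ f.ker).FG) (h2 : (K.map f).FG) : K.FG := by
  classical
  obtain ⟨S, hS⟩ := h1
  obtain ⟨T, hT⟩ := h2
  have hmem : ∀ t ∈ T, ∃ k ∈ K, f k = t := by
    intro t ht
    have : t ∈ K.map f := by rw [← hT]; exact subset_closure ht
    exact this
  choose! k hk hk' using hmem
  refine ⟨S ∪ T.image k, le_antisymm ?_ ?_⟩
  · rw [closure_le]
    intro x hx
    simp only [Finset.coe_union, Finset.coe_image, Set.mem_union, Set.mem_image,
      Finset.mem_coe] at hx
    rcases hx with hx | ⟨t, ht, rfl⟩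
    · have : x ∈ K ⊓ f.ker := by rw [← hS]; exact subset_closure hx
      exact this.1
    · exact hk t ht
  · set L := closure ((S ∪ T.image k : Finset G) : Set G) with hL
    have hSL : K ⊓ f.ker ≤ L := by
      rw [← hS]
      apply Subgroup.closure_mono
      intro x hx
      simp only [Finset.coe_union, Set.mem_union]
      exact Or.inl hx
    have hTL : K.map f ≤ L.map f := by
      rw [← hT, closure_le]
      intro t ht
      refine ⟨k t, subset_closure ?_, hk' t ht⟩
      simp only [Finset.coe_union, Finset.coe_image, Set.mem_union, Set.mem_image, Finset.mem_coe]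
      exact Or.inr ⟨t, ht, rfl⟩
    have hLK : L ≤ K := by
      rw [hL, closure_le]
      intro x hx
      simp only [Finset.coe_union, Finset.coe_image, Set.mem_union, Set.mem_image,
        Finset.mem_coe] at hx
      rcases hx with hx | ⟨t, ht, rfl⟩
      · have : x ∈ K ⊓ f.ker := by rw [← hS]; exact subset_closure hx
        exact this.1
      · exact hk t ht
    intro x hx
    obtain ⟨y, hy, hxy⟩ := hTL ⟨x, hx, rfl⟩
    have h3 : y⁻¹ * x ∈ K ⊓ f.ker := by
      rw [Subgroup.mem_inf]
      refine ⟨K.mul_mem (K.inv_mem (hLK hy)) hx, ?_⟩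
      rw [MonoidHom.mem_ker, map_mul, map_inv, hxy, inv_mul_cancel]
    have h4 : x = y * (y⁻¹ * x) := by group
    rw [h4]
    exact mul_mem hy (hSL h3)

theorem MaxCond.of_hom {G H : Type*} [Group G] [Group H] (f : G →* H)
    (hk : ∀ K : Subgroup G, K ≤ f.ker → K.FG) (hH : MaxCond H) : MaxCond G := fun K =>
  fg_of_le_of_fg_map f K (hk _ inf_le_right) (hH _)

theorem MaxCond.of_surjective {G H : Type*} [Group G] [Group H] (f : G →* H)
    (hf : Function.Surjective f) (hG : MaxCond G) : MaxCond H := by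
  classical
  intro K
  obtain ⟨S, hS⟩ := hG (K.comap f)
  refine ⟨S.image f, ?_⟩
  rw [Finset.coe_image, ← MonoidHom.map_closure, hS, map_comap_eq_self_of_surjective hf]

theorem MaxCond.quotient {G : Type*} [Group G] (hG : MaxCond G) (N : Subgroup G) [N.Normal] :
    MaxCond (G ⧸ N) := hG.of_surjective (QuotientGroup.mk' N) (QuotientGroup.mk'_surjective N)

theorem MaxCond.of_injective {G H : Type*} [Group G] [Group H] (f : G →* H)
    (hf : Function.Injective f) (hH : MaxCond H) : MaxCond G := by
  apply MaxCond.of_hom f _ hH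
  intro K hK
  rw [(MonoidHom.ker_eq_bot_iff f).2 hf, le_bot_iff] at hK
  rw [hK]
  exact Subgroup.FG.bot

theorem MaxCond.subgroup {G : Type*} [Group G] (hG : MaxCond G) (K : Subgroup G) :
    MaxCond K := MaxCond.of_injective K.subtype K.subtype_injective hG

theorem MaxCond.fg {G : Type*} [Group G] (hG : MaxCond G) : Group.FG G := ⟨hG ⊤⟩

theorem maxCond_comm (Z : Type*) [CommGroup Z] [Group.FG Z] : MaxCond Z := by
  intro K
  rw [Subgroup.fg_iff_add_fg]
  haveI : AddGroup.FG (Additive Z) := inferInstance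
  haveI : Module.Finite ℤ (Additive Z) := Module.Finite.iff_addGroup_fg.2 inferInstance
  haveI : IsNoetherian ℤ (Additive Z) := inferInstance
  have h := IsNoetherian.noetherian (AddSubgroup.toIntSubmodule K.toAddSubgroup)
  rw [Submodule.fg_iff_addSubgroup_fg] at h
  simpa using h

/-- Subgroups of a finitely generated subgroup whose elements commute are finitely generated. -/
theorem fg_of_le_comm {G : Type*} [Group G] {Z K : Subgroup G} (hZ : Z.FG)
    (hc : ∀ a ∈ Z, ∀ b ∈ Z, a * b = b * a) (hK : K ≤ Z) : K.FG := by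
  letI : CommGroup Z := { (inferInstance : Group Z) with
    mul_comm := fun a b => Subtype.ext (hc a a.2 b b.2) }
  haveI : Group.FG Z := (Group.fg_iff_subgroup_fg Z).2 hZ
  have h := maxCond_comm Z (K.subgroupOf Z)
  have h2 : (K.subgroupOf Z).map Z.subtype = K := by
    rw [subgroupOf_map_subtype, inf_eq_left.2 hK]
  rw [← h2]
  classical
  obtain ⟨S, hS⟩ := h
  refine ⟨S.image Z.subtype, ?_⟩
  rw [Finset.coe_image, ← MonoidHom.map_closure, hS]

theorem comm_of_central {G : Type*} [Group G] (N : Subgroup G) (hN : ⁅N, (⊤ : Subgroup G)⁆ = ⊥)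
    {z : G} (hz : z ∈ N) (g : G) : z * g = g * z := by
  have h := commutator_mem_commutator hz (mem_top g)
  rw [hN, mem_bot, commutatorElement_def] at h
  have : z * g * z⁻¹ * g⁻¹ * g * z = g * z := by rw [h]; group
  simpa [mul_assoc] using this

theorem fg_last {G : Type*} [Group G] (hG : Group.FG G) (δ γ : Subgroup G)
    (hγ : γ = ⁅δ, (⊤ : Subgroup G)⁆) (hcen : ⁅γ, (⊤ : Subgroup G)⁆ = ⊥) (hγδ : γ ≤ δ)
    (hδ : ∃ Y : Finset G, (Y : Set G) ⊆ δ ∧ δ ≤ closure (Y : Set G) ⊔ γ) : γ.FG := by
  classical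
  obtain ⟨X, hX⟩ := hG.out
  obtain ⟨Y, hYδ, hY⟩ := hδ
  have hc : ∀ z ∈ γ, ∀ g, z * g = g * z := fun z hz g => comm_of_central γ hcen hz g
  have hmem : ∀ d ∈ δ, ∀ g, ⁅d, g⁆ ∈ γ := by
    intro d hd g
    rw [hγ]
    exact commutator_mem_commutator hd (mem_top g)
  set C : Subgroup G := closure (((Y ×ˢ X).image fun q : G × G => ⁅q.1, q.2⁆ : Finset G) : Set G) with hC
  have hCγ : C ≤ γ := by
    rw [hC, closure_le]
    intro z hz
    simp only [Finset.coe_image, Finset.coe_product, Set.mem_image, Set.mem_prod, Finset.mem_coe,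
      Prod.exists] at hz
    obtain ⟨y, x, ⟨hy, -⟩, rfl⟩ := hz
    exact hmem y (hYδ hy) x
  refine ⟨(Y ×ˢ X).image fun q : G × G => ⁅q.1, q.2⁆, le_antisymm hCγ ?_⟩
  rw [← hC]
  -- bilinearity
  have hr : ∀ d ∈ δ, ∀ g h : G, ⁅d, g * h⁆ = ⁅d, g⁆ * ⁅d, h⁆ := by
    intro d hd g h
    have h1 : ⁅d, g * h⁆ = ⁅d, g⁆ * (g * ⁅d, h⁆ * g⁻¹) := by
      simp only [commutatorElement_def]; group
    rw [h1, ← hc _ (hmem d hd h) g]
    group
  have hl : ∀ d ∈ δ, ∀ e ∈ δ, ∀ g : G, ⁅d * e, g⁆ = ⁅e, g⁆ * ⁅d, g⁆ := by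
    intro d hd e he g
    have h1 : ⁅d * e, g⁆ = (d * ⁅e, g⁆ * d⁻¹) * ⁅d, g⁆ := by
      simp only [commutatorElement_def]; group
    rw [h1, ← hc _ (hmem e he g) d]
    group
  have hr' : ∀ d ∈ δ, ∀ g : G, ⁅d, g⁻¹⁆ = ⁅d, g⁆⁻¹ := by
    intro d hd g
    have := hr d hd g g⁻¹
    rw [mul_inv_cancel, commutatorElement_one_right] at this
    exact eq_inv_of_mul_eq_one_right this.symm
  have hl' : ∀ d ∈ δ, ∀ g : G, ⁅d⁻¹, g⁆ = ⁅d, g⁆⁻¹ := by
    intro d hd g
    have := hl d hd d⁻¹ (inv_mem hd) g
    rw [mul_inv_cancel, commutatorElement_one_left] at this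
    exact eq_inv_of_mul_eq_one_left this.symm
  -- first step
  have s1 : ∀ y ∈ Y, ∀ g : G, ⁅y, g⁆ ∈ C := by
    intro y hy g
    have hg : g ∈ closure (X : Set G) := by rw [hX]; exact mem_top g
    induction hg using closure_induction with
    | mem x hx =>
      apply Subgroup.subset_closure
      simp only [Finset.coe_image, Finset.coe_product, Set.mem_image, Set.mem_prod, Finset.mem_coe,
        Prod.exists]
      exact ⟨y, x, ⟨hy, hx⟩, rfl⟩
    | one => rw [commutatorElement_one_right]; exact one_mem _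
    | mul a b _ _ ha hb => rw [hr y (hYδ hy)]; exact mul_mem ha hb
    | inv a _ ha => rw [hr' y (hYδ hy)]; exact inv_mem ha
  have s2 : ∀ d ∈ closure (Y : Set G), d ∈ δ ∧ ∀ g : G, ⁅d, g⁆ ∈ C := by
    intro d hd
    induction hd using closure_induction with
    | mem y hy => exact ⟨hYδ hy, s1 y hy⟩
    | one => exact ⟨one_mem _, fun g => by rw [commutatorElement_one_left]; exact one_mem _⟩
    | mul a b _ _ ha hb =>
      exact ⟨mul_mem ha.1 hb.1, fun g => by
        rw [hl a ha.1 b hb.1]; exact mul_mem (hb.2 g) (ha.2 g)⟩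
    | inv a _ ha =>
      exact ⟨inv_mem ha.1, fun g => by rw [hl' a ha.1]; exact inv_mem (ha.2 g)⟩
  have hYle : closure (Y : Set G) ≤ δ := fun d hd => (s2 d hd).1
  conv_lhs => rw [hγ]
  rw [commutator_le]
  intro d hd g _
  have hγn : ∀ z ∈ γ, ∀ g : G, ⁅z, g⁆ = 1 := by
    intro z hz g
    rw [commutatorElement_def, hc z hz g]; group
  have hd' := hY hd
  haveI : γ.Normal := ⟨fun z hz g => by rw [← hc z hz g]; simpa using hz⟩
  rw [mem_sup_of_normal_right] at hd'
  obtain ⟨y, hy, z, hz, rfl⟩ := hd'
  rw [hl y (hYle hy) z (hγδ hz), hγn z hz g, one_mul]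
  exact (s2 y hy).2 g

universe u in
theorem maxCond_of_lcs : ∀ (c : ℕ) (G : Type u) [Group G], Group.FG G →
    (⊤ : Subgroup G).lowerCentralSeries c = ⊥ → MaxCond G := by
  intro c
  induction c with
  | zero =>
    intro G _ _ h K
    have : K = ⊥ := by
      rw [eq_bot_iff, ← h]; exact le_top
    rw [this]; exact Subgroup.FG.bot
  | succ c ih =>
    intro G _ hG h
    set γ := (⊤ : Subgroup G).lowerCentralSeries c with hγ
    have hcen : ⁅γ, (⊤ : Subgroup G)⁆ = ⊥ := h
    have hc : ∀ z ∈ γ, ∀ g, z * g = g * z := fun z hz g => comm_of_central γ hcen hz g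
    haveI : γ.Normal := ⟨fun z hz g => by rw [← hc z hz g]; simpa using hz⟩
    have hQ : MaxCond (G ⧸ γ) := by
      haveI := hG
      apply ih (G ⧸ γ) inferInstance
      have h1 := map_lowerCentralSeries (⊤ : Subgroup G) (QuotientGroup.mk' γ) c
      rw [← hγ] at h1
      rw [Subgroup.map_top_of_surjective _ (QuotientGroup.mk'_surjective γ)] at h1
      rw [← h1, eq_bot_iff, map_le_iff_le_comap]
      intro x hx
      simpa using hx
    have hγfg : γ.FG := by
      rcases Nat.eq_zero_or_pos c with hc0 | hc0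
      · have : γ = ⊤ := by rw [hγ, hc0]; rfl
        rw [this]
        exact hG.out
      · obtain ⟨d, rfl⟩ : ∃ d, c = d + 1 := ⟨c - 1, by omega⟩
        apply fg_last hG ((⊤ : Subgroup G).lowerCentralSeries d) γ hγ hcen
        · rw [hγ]
          exact Subgroup.lowerCentralSeries_antitone (⊤ : Subgroup G) (Nat.le_succ d)
        · classical
          set δ := (⊤ : Subgroup G).lowerCentralSeries d
          obtain ⟨T, hT⟩ := hQ (δ.map (QuotientGroup.mk' γ))
          have hmem : ∀ t ∈ T, ∃ k ∈ δ, QuotientGroup.mk' γ k = t := by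
            intro t ht
            have : t ∈ δ.map (QuotientGroup.mk' γ) := by rw [← hT]; exact subset_closure ht
            exact this
          choose! k hk hk' using hmem
          refine ⟨T.image k, ?_, ?_⟩
          · intro x hx
            simp only [Finset.coe_image, Set.mem_image, Finset.mem_coe] at hx
            obtain ⟨t, ht, rfl⟩ := hx
            exact hk t ht
          · intro x hx
            have h2 : QuotientGroup.mk' γ x ∈ (closure ((T.image k : Finset G) : Set G)).map
                (QuotientGroup.mk' γ) := by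
              rw [MonoidHom.map_closure]
              have h3 : QuotientGroup.mk' γ x ∈ closure (T : Set (G ⧸ γ)) := by
                rw [hT]; exact ⟨x, hx, rfl⟩
              refine Subgroup.closure_mono ?_ h3
              intro t ht
              refine ⟨k t, ?_, hk' t ht⟩
              simp only [Finset.coe_image, Set.mem_image, Finset.mem_coe]
              exact ⟨t, ht, rfl⟩
            obtain ⟨y, hy, hxy⟩ := h2
            have h4 : y⁻¹ * x ∈ γ := by
              rw [← QuotientGroup.ker_mk' γ, MonoidHom.mem_ker, map_mul, map_inv, hxy,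
                inv_mul_cancel]
            have h5 : x = y * (y⁻¹ * x) := by group
            rw [h5]
            exact mul_mem (mem_sup_left hy) (mem_sup_right h4)
    apply MaxCond.of_hom (QuotientGroup.mk' γ) _ hQ
    intro K hK
    rw [QuotientGroup.ker_mk'] at hK
    exact fg_of_le_comm hγfg (fun a ha b _ => hc a ha b) hK

/-- A finitely generated nilpotent group satisfies the maximal condition on subgroups. -/
theorem maxCond_of_nilpotent (G : Type*) [Group G] [hn : Group.IsNilpotent G] (hG : Group.FG G) :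
    MaxCond G := by
  obtain ⟨c, hc⟩ := Subgroup.nilpotent_iff_lowerCentralSeries.1 hn
  exact maxCond_of_lcs c G hG hc

end Pool.Agent.helper14.FA
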